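import Pool.Agent.Lib.MP_108739_an.Main

/-! The linearised maximal extension estimate along convex or concave selections. -/

namespace Pool.Agent.Results.MP_108739_an.ConvexSelection

open MeasureTheory Set Complex
open scoped ENNReal NNReal
open Pool.Agent.Lib.MP_108739_an

/-- Arclength measure of the curve `u ↦ (a u, b u)`, `0 ≤ u ≤ 1`, on the parameter interval. -/
noncomputable def arc (a b : ℝ → ℝ) : Measure ℝ :=
  (volume.restrict (Icc (0 : ℝ) 1)).withDensity
    fun u => ENNReal.ofReal √(deriv a u ^ 2 + deriv b u ^ 2)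

/-- The extension operator of the curve, evaluated at the point `(x, y)`. -/
noncomputable def ext (a b : ℝ → ℝ) (f : ℝ → ℂ) (x y : ℝ) : ℂ :=
  ∫ u, cexp (I * ((x * a u + y * b u : ℝ) : ℂ)) * f u ∂(arc a b)

theorem slope_convex {A : Set ℝ} {g : ℝ → ℝ} (hg : ConvexOn ℝ A g) :
    ∃ σ : ℝ → ℝ, Measurable σ ∧ ∀ s ∈ interior A, ∀ t ∈ interior A,
      ∃ m ∈ uIcc (σ s) (σ t), g t - g s = m * (t - s) := by
  refine ⟨fun x => derivWithin g (Ioi x) x, measurable_derivWithin_Ioi g, ?_⟩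
  have key : ∀ s ∈ interior A, ∀ t ∈ interior A, s < t →
      slope g s t ∈ uIcc (derivWithin g (Ioi s) s) (derivWithin g (Ioi t) t) := fun s hs t ht h =>
    mem_uIcc_of_le (hg.rightDeriv_le_slope_of_mem_interior hs (interior_subset ht) h)
      ((hg.slope_le_leftDeriv_of_mem_interior (interior_subset hs) ht h).trans
        (hg.leftDeriv_le_rightDeriv_of_mem_interior ht))
  intro s hs t ht
  rcases lt_trichotomy s t with h | rfl | h
  · refine ⟨_, key s hs t ht h, ?_⟩
    rw [slope_def_field, div_mul_cancel₀ _ (sub_pos.2 h).ne']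
  · exact ⟨_, left_mem_uIcc, by simp⟩
  · refine ⟨slope g t s, by rw [uIcc_comm]; exact key t ht s hs h, ?_⟩
    rw [slope_def_field]
    have := (sub_pos.2 h).ne'
    field_simp
    ring

theorem slope_either {A : Set ℝ} {g : ℝ → ℝ} (hg : ConvexOn ℝ A g ∨ ConcaveOn ℝ A g) :
    ∃ σ : ℝ → ℝ, Measurable σ ∧ ∀ s ∈ interior A, ∀ t ∈ interior A,
      ∃ m ∈ uIcc (σ s) (σ t), g t - g s = m * (t - s) := by
  rcases hg with hg | hg
  · exact slope_convex hg
  obtain ⟨σ, h1, h2⟩ := slope_convex hg.neg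
  refine ⟨fun x => -σ x, h1.neg, fun s hs t ht => ?_⟩
  obtain ⟨m, hm, e⟩ := h2 s hs t ht
  refine ⟨-m, ?_, ?_⟩
  · rw [mem_uIcc] at hm ⊢
    rcases hm with hm | hm
    · right; constructor <;> linarith [hm.1, hm.2]
    · left; constructor <;> linarith [hm.1, hm.2]
  · simp only [Pi.neg_apply] at e
    linarith

theorem result (a b : ℝ → ℝ) (ha : ContDiff ℝ 2 a) (hb : ContDiff ℝ 2 b)
    (hcurv : ∀ u ∈ Icc (0 : ℝ) 1,
      deriv a u * deriv (deriv b) u - deriv b u * deriv (deriv a) u ≠ 0)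
    (q : ℝ) (hq : 3 < q) (hq4 : q ≤ 4) (p : ℝ≥0∞) (hp : ENNReal.ofReal (2 / q) + p⁻¹ < 1)
    (B : ℝ) :
    ∃ C : ℝ≥0, ∀ (A : Set ℝ) (g η : ℝ → ℝ), (ConvexOn ℝ A g ∨ ConcaveOn ℝ A g) → Measurable η →
      (∀ s t, |η t - η s| ≤ B * √(1 + |t - s|)) → ∀ f : ℝ → ℂ, MemLp f p (arc a b) →
        eLpNorm (fun x => ext a b f x (g x + η x)) (ENNReal.ofReal q) (volume.restrict A) ≤
          C * eLpNorm f p (arc a b) := by
  classical
  have hq0 : 0 < q := by linarith
  have hd : ∀ c : ℝ → ℝ, ContDiff ℝ 2 c → (∀ u, HasDerivAt c (deriv c u) u) ∧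
      (∀ u, HasDerivAt (deriv c) (deriv (deriv c) u) u) ∧ Continuous (deriv (deriv c)) := by
    intro c hc
    have h1 : ContDiff ℝ (1 + 1) c := by rwa [one_add_one_eq_two]
    have h2 := (contDiff_succ_iff_deriv.1 h1).2.2
    exact ⟨fun u => (hc.differentiable (by norm_num) u).hasDerivAt,
      fun u => (h2.differentiable (by norm_num) u).hasDerivAt, h2.continuous_deriv le_rfl⟩
  obtain ⟨a1, a2, a3⟩ := hd a ha
  obtain ⟨b1, b2, b3⟩ := hd b hb
  have ca : Continuous (deriv a) := continuous_iff_continuousAt.2 fun u => (a2 u).continuousAt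
  have cb : Continuous (deriv b) := continuous_iff_continuousAt.2 fun u => (b2 u).continuousAt
  set v : ℝ → ℝ := fun u => √(deriv a u ^ 2 + deriv b u ^ 2) with hv
  have cv : Continuous v := by simp only [hv]; fun_prop
  have v0 : ∀ u, 0 ≤ v u := fun u => Real.sqrt_nonneg _
  obtain ⟨L, hL⟩ := (isCompact_Icc (a := (0 : ℝ)) (b := 1)).exists_bound_of_continuousOn
    (f := fun u => |deriv b u| + |deriv (deriv a) u| + |deriv (deriv b) u| + v u) (by fun_prop)
  have hL' : ∀ u ∈ Icc (0 : ℝ) 1, |deriv b u| ≤ L ∧ |deriv (deriv a) u| ≤ L ∧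
      |deriv (deriv b) u| ≤ L ∧ v u ≤ L := fun u hu => by
    have h := (Real.le_norm_self _).trans (hL u hu)
    have := abs_nonneg (deriv b u)
    have := abs_nonneg (deriv (deriv a) u)
    have := abs_nonneg (deriv (deriv b) u)
    have := v0 u
    refine ⟨?_, ?_, ?_, ?_⟩ <;> linarith
  have H : Curve a b (deriv a) (deriv b) (deriv (deriv a)) (deriv (deriv b)) L :=
    ⟨a1, b1, a2, b2, a3, b3, fun u hu => (hL' u hu).1, fun u hu => (hL' u hu).2.1,
      fun u hu => (hL' u hu).2.2.1⟩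
  obtain ⟨r, hr2, hrq, hrδ, hrp⟩ : ∃ r : ℝ, 2 ≤ r ∧ r ≤ q ∧ 0 < q - 2 - q / r ∧
      ENNReal.ofReal r ≤ p := by
    by_cases h : ENNReal.ofReal q ≤ p
    · exact ⟨q, by linarith, le_rfl, by rw [div_self hq0.ne']; linarith, h⟩
    push Not at h
    have ht : p ≠ ∞ := h.ne_top
    have h0 : p ≠ 0 := by rintro rfl; simp at hp
    have hpos : 0 < p.toReal := ENNReal.toReal_pos h0 ht
    rw [← ENNReal.ofReal_toReal ht, ← ENNReal.ofReal_inv_of_pos hpos,
      ← ENNReal.ofReal_add (by positivity) (by positivity), ENNReal.ofReal_lt_one] at hp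
    have h1 : 1 / 2 ≤ 2 / q := by rw [div_le_div_iff₀ two_pos hq0]; linarith
    refine ⟨p.toReal, ?_, (ENNReal.toReal_lt_of_lt_ofReal h).le, ?_,
      (ENNReal.ofReal_toReal ht).le⟩
    · have : (p.toReal)⁻¹ ≤ 2⁻¹ := by linarith
      exact (inv_le_inv₀ hpos two_pos).1 this
    · have : q - 2 - q / p.toReal = q * (1 - (2 / q + (p.toReal)⁻¹)) := by field_simp; ring
      rw [this]
      exact mul_pos hq0 (by linarith)
  have hr0 : 0 < r := by linarith
  obtain ⟨C, hC, key⟩ := main_real H hcurv B r q hr2 hrq (by linarith) hrδ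
  have hvm : Measurable fun u => ENNReal.ofReal (v u) := cv.measurable.ennreal_ofReal
  have hfin : arc a b univ ≠ ∞ := by
    rw [arc, withDensity_apply _ MeasurableSet.univ, Measure.restrict_univ]
    refine ne_top_of_le_ne_top ?_ (setLIntegral_mono' (g := fun _ => ENNReal.ofReal L)
      measurableSet_Icc fun u hu => ENNReal.ofReal_le_ofReal (hL' u hu).2.2.2)
    simp
  set D1 : ℝ≥0∞ := ENNReal.ofReal L ^ (r - 1) with hD1
  set D2 : ℝ≥0∞ := arc a b univ ^ (1 / r - 1 / p.toReal) with hD2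
  have hD1t : D1 ≠ ∞ := ENNReal.rpow_ne_top_of_nonneg (by linarith) ENNReal.ofReal_ne_top
  have hD2t : D2 ≠ ∞ := by
    refine ENNReal.rpow_ne_top_of_nonneg ?_ hfin
    rcases eq_or_ne p ∞ with rfl | ht
    · simp [hr0.le]
    · exact sub_nonneg.2 (one_div_le_one_div_of_le hr0 ((ENNReal.ofReal_le_iff_le_toReal ht).1 hrp))
  have hCt : C ^ (1 / q) * D1 ^ (1 / r) * D2 ≠ ∞ :=
    ENNReal.mul_ne_top (ENNReal.mul_ne_top (ENNReal.rpow_ne_top_of_nonneg (by positivity) hC)
      (ENNReal.rpow_ne_top_of_nonneg (by positivity) hD1t)) hD2t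
  refine ⟨(C ^ (1 / q) * D1 ^ (1 / r) * D2).toNNReal, fun A g η hg hη hηB f hf => ?_⟩
  rw [ENNReal.coe_toNNReal hCt]
  obtain ⟨σ, hσ, hsl⟩ := slope_either hg
  have hAc : Convex ℝ A := hg.elim (·.1) (·.1)
  have hgc : ContinuousOn g (interior A) :=
    hg.elim (·.continuousOn_interior) (·.continuousOn_interior)
  have hAm : MeasurableSet (interior A) := isOpen_interior.measurableSet
  set γ : ℝ → ℝ := fun x => (interior A).piecewise g 0 x + η x with hγ
  have hγm : Measurable γ := (hgc.measurable_piecewise continuousOn_const hAm).add hη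
  have hγe : ∀ x ∈ interior A, γ x = g x + η x := fun x hx => by
    simp only [hγ, piecewise_eq_of_mem _ _ _ hx]
  set f' := hf.1.mk f with hf'
  have hfm : Measurable f' := hf.1.measurable_mk
  have hfe : f =ᵐ[arc a b] f' := hf.1.ae_eq_mk
  set F : ℝ → ℂ := fun u => (v u : ℂ) * f' u with hF
  have hFm : Measurable F := (Complex.measurable_ofReal.comp cv.measurable).mul hfm
  have e1 : ∀ x ∈ interior A,
      ext a b f x (g x + η x) = ∫ u in (0 : ℝ)..1, wave a b γ x u * F u := fun x hx => by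
    have : ext a b f x (g x + η x) = ∫ u, wave a b γ x u * f' u ∂(arc a b) := by
      refine integral_congr_ae ?_
      filter_upwards [hfe] with u hu
      rw [hu, wave, hγe x hx]
    rw [this, arc, integral_withDensity_eq_integral_toReal_smul hvm
      (ae_of_all _ fun _ => ENNReal.ofReal_lt_top), intervalIntegral.integral_of_le zero_le_one,
      integral_Icc_eq_integral_Ioc]
    refine integral_congr_ae (ae_of_all _ fun u => ?_)
    simp only [hF, ENNReal.toReal_ofReal (v0 u), Complex.real_smul]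
    ring
  have e2 : ∫⁻ u in Ioc (0 : ℝ) 1, ‖F u‖ₑ ^ r ≤ D1 * ∫⁻ u, ‖f u‖ₑ ^ r ∂(arc a b) := by
    have : ∫⁻ u, ‖f u‖ₑ ^ r ∂(arc a b) = ∫⁻ u, ‖f' u‖ₑ ^ r ∂(arc a b) :=
      lintegral_congr_ae (by filter_upwards [hfe] with u hu using by rw [hu])
    rw [this, arc, lintegral_withDensity_eq_lintegral_mul _ hvm (hfm.enorm.pow_const r),
      ← lintegral_const_mul' _ _ hD1t]
    refine (lintegral_mono_set Ioc_subset_Icc_self).trans
      (setLIntegral_mono' measurableSet_Icc fun u hu => ?_)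
    have h1 : ‖(v u : ℂ)‖ₑ = ENNReal.ofReal (v u) := by
      rw [← ofReal_norm, Complex.norm_real, Real.norm_eq_abs, abs_of_nonneg (v0 u)]
    simp only [hF, Pi.mul_apply]
    rw [enorm_mul, ENNReal.mul_rpow_of_nonneg _ _ hr0.le, h1, ← mul_assoc]
    gcongr
    calc ENNReal.ofReal (v u) ^ r = ENNReal.ofReal (v u) ^ (r - 1) * ENNReal.ofReal (v u) ^ (1 : ℝ) := by
          rw [← ENNReal.rpow_add_of_nonneg _ _ (by linarith) zero_le_one, sub_add_cancel]
      _ ≤ _ := by
          rw [ENNReal.rpow_one, hD1]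
          gcongr
          · linarith
          · exact (hL' u hu).2.2.2
  have e3 : (∫⁻ u, ‖f u‖ₑ ^ r ∂(arc a b)) ^ (1 / r) ≤ eLpNorm f p (arc a b) * D2 := by
    have := eLpNorm_le_eLpNorm_mul_rpow_measure_univ hrp hf.1
    rwa [eLpNorm_eq_lintegral_rpow_enorm_toReal (by simpa using hr0) ENNReal.ofReal_ne_top,
      ENNReal.toReal_ofReal hr0.le] at this
  have e4 : (∫⁻ u in Ioc (0 : ℝ) 1, ‖F u‖ₑ ^ r) ^ (1 / r) ≤
      D1 ^ (1 / r) * (eLpNorm f p (arc a b) * D2) := by
    refine (ENNReal.rpow_le_rpow e2 (by positivity)).trans ?_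
    rw [ENNReal.mul_rpow_of_nonneg _ _ (by positivity)]
    gcongr
  have e5 : ∫⁻ u in Ioc (0 : ℝ) 1, ‖F u‖ₑ ^ r ≠ ∞ := by
    intro h
    rw [h, ENNReal.top_rpow_of_pos (by positivity), top_le_iff] at e4
    exact ENNReal.mul_ne_top (ENNReal.rpow_ne_top_of_nonneg (by positivity) hD1t)
      (ENNReal.mul_ne_top hf.2.ne hD2t) e4
  have e6 := key γ σ (interior A) F hγm hσ hAm (fun s hs t ht => by
    obtain ⟨m, hm, e⟩ := hsl s hs t ht
    refine ⟨m, hm, ?_⟩
    rw [hγe t ht, hγe s hs, ← e]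
    convert hηB s t using 2
    ring) hFm e5
  rw [← Measure.restrict_congr_set (interior_ae_eq_of_null_frontier (hAc.addHaar_frontier volume)),
    eLpNorm_eq_lintegral_rpow_enorm_toReal (by simpa using hq0) ENNReal.ofReal_ne_top,
    ENNReal.toReal_ofReal hq0.le, setLIntegral_congr_fun hAm fun x hx => by rw [e1 x hx]]
  refine (ENNReal.rpow_le_rpow e6 (by positivity)).trans ?_
  rw [ENNReal.mul_rpow_of_nonneg _ _ (by positivity), ← ENNReal.rpow_mul,
    show q / r * (1 / q) = 1 / r by field_simp]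
  calc _ ≤ C ^ (1 / q) * (D1 ^ (1 / r) * (eLpNorm f p (arc a b) * D2)) := by gcongr
    _ = _ := by ring

end Pool.Agent.Results.MP_108739_an.ConvexSelection
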